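import Pool.Agent.Helper45.CF.GoalsC
import Pool.Agent.Helper39.Uct.Main

/-!
# Project CF stage 2 (MP_d97caa_an), packet AQ: the pull-back algebra
-/

open scoped ComplexOrder ZeroAtInfty Topology ComplexConjugate NNReal
open TopologicalSpace Filter

namespace Pool.Agent.Helper32.CF2.AQ

open Pool.Agent.Helper34.CAR Pool.Agent.Helper39.CR Pool.Agent.Helper45.CF

noncomputable section

/-- The pull-back, as a subalgebra. -/
def sub {X Q M H : Type} [TopologicalSpace X] [CompactSpace X] [TopologicalSpace Q]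
    [CompactSpace Q] [CStarAlgebra M] [CStarAlgebra H] (e : C(X, Q)) (j : H →⋆ₐ[ℂ] C(X, M)) :
    StarSubalgebra ℂ C(Q, M) where
  carrier := {f | ∃ b, ∀ x, j b x = f (e x)}
  mul_mem' := by
    rintro f g ⟨b, hb⟩ ⟨c, hc⟩
    refine ⟨b * c, fun x => ?_⟩
    rw [map_mul, ContinuousMap.mul_apply, ContinuousMap.mul_apply, hb, hc]
  add_mem' := by
    rintro f g ⟨b, hb⟩ ⟨c, hc⟩
    refine ⟨b + c, fun x => ?_⟩
    rw [map_add, ContinuousMap.add_apply, ContinuousMap.add_apply, hb, hc]
  algebraMap_mem' := by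
    intro z
    refine ⟨algebraMap ℂ H z, fun x => ?_⟩
    rw [AlgHomClass.commutes]
    rfl
  star_mem' := by
    rintro f ⟨b, hb⟩
    refine ⟨star b, fun x => ?_⟩
    rw [map_star, ContinuousMap.star_apply, ContinuousMap.star_apply, hb]

theorem mem_sub {X Q M H : Type} [TopologicalSpace X] [CompactSpace X] [TopologicalSpace Q]
    [CompactSpace Q] [CStarAlgebra M] [CStarAlgebra H] (e : C(X, Q)) (j : H →⋆ₐ[ℂ] C(X, M))
    (f : C(Q, M)) : f ∈ sub e j ↔ ∃ b, ∀ x, j b x = f (e x) := Iff.rfl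

theorem closed_sub {X Q M H : Type} [TopologicalSpace X] [CompactSpace X] [TopologicalSpace Q]
    [CompactSpace Q] [CStarAlgebra M] [CStarAlgebra H] (e : C(X, Q)) (j : H →⋆ₐ[ℂ] C(X, M)) :
    IsClosed ((sub e j : StarSubalgebra ℂ C(Q, M)) : Set C(Q, M)) := by
  have h1 : IsClosed (Set.range (j : H →⋆ₙₐ[ℂ] C(X, M))) :=
    Pool.Agent.Helper39.Uct.t_RC H C(X, M) (j : H →⋆ₙₐ[ℂ] C(X, M))
  have h2 : ((sub e j : StarSubalgebra ℂ C(Q, M)) : Set C(Q, M)) =
      (fun f : C(Q, M) => f.comp e) ⁻¹' Set.range (j : H →⋆ₙₐ[ℂ] C(X, M)) := by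
    ext f
    constructor
    · rintro ⟨b, hb⟩
      refine ⟨b, ?_⟩
      ext1 x
      exact hb x
    · rintro ⟨b, hb⟩
      exact ⟨b, fun x => DFunLike.congr_fun hb x⟩
  rw [h2]
  exact h1.preimage (ContinuousMap.continuous_precomp e)

theorem t : Pool.Agent.Helper45.CF.S_AQ := by
  intro X Q M H _ _ _ _ _ _ e j hj
  have hcl := closed_sub e j
  have hex : ∀ f : sub e j, ∃ b, ∀ x, j b x = (f : C(Q, M)) (e x) := fun f => f.2
  choose r hr using hex
  have huniq : ∀ (b c : H), (∀ x, j b x = j c x) → b = c := by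
    intro b c h
    apply hj
    ext1 x
    exact h x
  refine ⟨sub e j, StarSubalgebra.cstarAlgebra (sub e j) (h_closed := hcl),
    (sub e j).subtype,
    { toFun := r
      map_one' := ?_
      map_mul' := ?_
      map_zero' := ?_
      map_add' := ?_
      commutes' := ?_
      map_star' := ?_ }, Subtype.val_injective, fun a x => hr a x, fun f hf => ⟨⟨f, hf⟩, rfl⟩⟩
  · refine huniq _ _ fun x => ?_
    rw [hr, map_one]
    rfl
  · intro f g
    refine huniq _ _ fun x => ?_
    rw [hr, map_mul, ContinuousMap.mul_apply, hr, hr]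
    rfl
  · refine huniq _ _ fun x => ?_
    rw [hr, map_zero]
    rfl
  · intro f g
    refine huniq _ _ fun x => ?_
    rw [hr, map_add, ContinuousMap.add_apply, hr, hr]
    rfl
  · intro z
    refine huniq _ _ fun x => ?_
    rw [hr, AlgHomClass.commutes]
    rfl
  · intro f
    refine huniq _ _ fun x => ?_
    rw [hr, map_star, ContinuousMap.star_apply, hr]
    rfl

end

end Pool.Agent.Helper32.CF2.AQ
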