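import Pool.Agent.Helper45.CF.GoalsC
import Pool.Agent.Helper47.CF.KAP
import Pool.Agent.Helper57.CF.ROT

/-!
# Project CF stage 2 (MP_d97caa_an), packet RRH: the rotated steps are *-homomorphisms
-/

open scoped ComplexOrder ZeroAtInfty Topology ComplexConjugate NNReal
open TopologicalSpace Filter

namespace Pool.Agent.Helper32.CF2.RRH

open Pool.Agent.Helper34.CAR Pool.Agent.Helper39.CR Pool.Agent.Helper45.CF

noncomputable section

/-- The rotated step as a *-homomorphism. -/
theorem gen {B : Type} [CStarAlgebra B] (ω : B →⋆ₐ[ℂ] ℂ) (C : Type) [Fintype C]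
    [DecidableEq C] (c0 c1 c2 : C) (K : B →⋆ₐ[ℂ] Mt C B) (h1 : ∀ b, K b c1 c1 = b)
    (h2 : ∀ b x, x ≠ c1 → K b c1 x = 0 ∧ K b x c1 = 0) (h3 : HasOm ω c0 c1 c2 K) :
    ∃ R : B →⋆ₐ[ℂ] C(Sphere2, Mt C B), ∀ b y, R b y = Mt.of (rotE ω c1 c2 K y b) := by
  have hU := Pool.Agent.Helper57.CF.ROT.t B ω C c0 c1 c2 K h1 h2 h3
  choose U hU1 hU2 hU3 using hU
  let κy : Sphere2 → B → Mt C B := fun y b => Mt.of (rotE ω c1 c2 K y b)
  have hκ : ∀ y b, κy y b = U y * K b * star (U y) := by
    intro y b
    ext p q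
    exact hU3 y _ _ _
  have hc : ∀ b, Continuous fun y => κy y b := fun b =>
    Pool.Agent.Helper47.CF.KAP.continuous_of_entries _ fun p q =>
      Pool.Agent.Helper47.CF.KAP.continuous_rotE ω _ _ _ _ _ _
  let κh : B →⋆ₐ[ℂ] C(Sphere2, Mt C B) :=
    { toFun := fun a => ⟨fun y => κy y a, hc a⟩
      map_one' := by
        ext1 y
        show κy y 1 = 1
        rw [hκ, map_one, mul_one, hU2]
      map_mul' := fun a b => by
        ext1 y
        show κy y (a * b) = κy y a * κy y b
        rw [hκ, hκ, hκ, map_mul]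
        calc U y * (K a * K b) * star (U y)
            = U y * K a * 1 * (K b * star (U y)) := by
              rw [mul_one]; simp only [mul_assoc]
          _ = _ := by rw [← hU1 y]; simp only [mul_assoc]
      map_zero' := by
        ext1 y
        show κy y 0 = 0
        rw [hκ, map_zero, mul_zero, zero_mul]
      map_add' := fun a b => by
        ext1 y
        show κy y (a + b) = κy y a + κy y b
        rw [hκ, hκ, hκ, map_add, mul_add, add_mul]
      commutes' := fun c => by
        ext1 y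
        show κy y (algebraMap ℂ _ c) = algebraMap ℂ _ c
        rw [hκ, AlgHomClass.commutes, ← Algebra.commutes, mul_assoc, hU2, mul_one]
      map_star' := fun a => by
        ext1 y
        show κy y (star a) = star (κy y a)
        rw [hκ, hκ, map_star, star_mul, star_mul, star_star, mul_assoc] }
  exact ⟨κh, fun b y => rfl⟩

theorem t : Pool.Agent.Helper45.CF.S_RRH := by
  intro B _ θ ω
  constructor
  · refine gen ω (Fin 2 ⊕ Unit) (.inl 0) (.inl 1) (.inr ())
      (osum (Sys2.Ktriv θ) (scl B (chM ω))) (fun b => rfl) ?_ ?_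
    · intro b x hx
      rcases x with x | x
      · have hx' : x ≠ 1 := fun h => hx (by rw [h])
        constructor
        · show Sys2.Ktriv θ b 1 x = 0
          rw [Sys2.Ktriv_apply, if_neg (Ne.symm hx')]
        · show Sys2.Ktriv θ b x 1 = 0
          rw [Sys2.Ktriv_apply, if_neg hx']
      · exact ⟨rfl, rfl⟩
    · refine ⟨by simp, by simp, fun b => rfl, ?_⟩
      intro b x hx
      rcases x with x | x
      · exact ⟨rfl, rfl⟩
      · exact absurd rfl hx
  · intro J _ _ t
    obtain ⟨h01, _, _, _, hK1, hK2, _, _⟩ := kst_step θ ω t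
    exact gen ω _ (i0 J) (i1 J) (i2 J) (kst θ ω t) hK1
      (fun b x hx => ⟨hK2 b _ _ (Ne.symm hx) (Or.inr (Or.inl rfl)),
        hK2 b _ _ hx (Or.inr (Or.inr (Or.inr rfl)))⟩) (kst_om θ ω t)

end

end Pool.Agent.Helper32.CF2.RRH
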